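import Mathlib
import Pool.Agent.R499.Linear

/-!
# Q2: valuations of `(1/n) ∑_{k<n} (2k+1) (-1)^k D_k(x)^3`

At `x = -1/4` there is the closed form
`∑_{k<n+1} (2k+1) (-1)^k D_k^3 = (-1)^n 4 (n+1)^2 D_n D_{n+1} (D_n - D_{n+1})`.
-/

set_option autoImplicit false

namespace Pool.Agent.Results.MP_2869d0_nt.CubeSums

open Finset Pool.Agent.R499.Linear

variable {R : Type*} [CommRing R]

/-- `D_n(x) = ∑_{k=0}^n C(n,k) C(n+k,k) x^k` -/
def D (n : ℕ) (x : R) : R := ∑ k ∈ range (n + 1), (n.choose k : R) * ((n + k).choose k : R) * x ^ k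

lemma D_ext (x : R) {n N : ℕ} (h : n < N) : D n x = ∑ k ∈ range N, (b k n : R) * x ^ k := by
  have e : D n x = ∑ k ∈ range (n + 1), (b k n : R) * x ^ k := by
    unfold D b
    push_cast
    rfl
  rw [e]
  apply sum_subset (Finset.range_subset_range.mpr h)
  intro i _ hi
  rw [b_eq_zero (by simpa using hi)]
  simp

lemma coeff_rec (i k : ℕ) :
    ((k : ℤ) + 2) * b (i + 1) (k + 2) + ((k : ℤ) + 1) * b (i + 1) k
      = (2 * (k : ℤ) + 3) * b (i + 1) (k + 1) + 2 * (2 * (k : ℤ) + 3) * b i (k + 1) := by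
  have hi : ((i : ℤ) + 1) ^ 2 ≠ 0 := by positivity
  apply mul_left_cancel₀ hi
  have r1 := b_succ i (k + 1)
  have r2 := b_succ i (k + 2)
  have r3 := b_succ i k
  have u1 := b_up i (k + 1)
  have u2 := b_up i k
  push_cast at r1 r2 r3 u1 u2
  rw [show k + 1 + 1 = k + 2 by ring] at u1
  linear_combination ((k : ℤ) + 2) * r2 + ((k : ℤ) + 1) * r3 - (2 * (k : ℤ) + 3) * r1
    + ((k : ℤ) + 2) * ((k : ℤ) + 3 + i) * u1 - ((k : ℤ) + 1) * ((k : ℤ) - i) * u2

/-- three-term recurrence -/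
lemma D_rec (x : R) (k : ℕ) :
    ((k : R) + 2) * D (k + 2) x + ((k : R) + 1) * D k x = (2 * (k : R) + 3) * (1 + 2 * x) * D (k + 1) x := by
  rw [D_ext x (show k + 2 < k + 3 by omega), D_ext x (show k < k + 3 by omega)]
  have e : (2 * (k : R) + 3) * (1 + 2 * x) * D (k + 1) x
      = (2 * (k : R) + 3) * ∑ i ∈ range (k + 3), (b i (k + 1) : R) * x ^ i
        + ∑ i ∈ range (k + 2), 2 * (2 * (k : R) + 3) * (b i (k + 1) : R) * x ^ (i + 1) := by
    rw [← D_ext x (show k + 1 < k + 3 by omega)]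
    have : ∑ i ∈ range (k + 2), 2 * (2 * (k : R) + 3) * (b i (k + 1) : R) * x ^ (i + 1)
        = 2 * (2 * (k : R) + 3) * x * D (k + 1) x := by
      rw [D_ext x (show k + 1 < k + 2 by omega), mul_sum]
      apply sum_congr rfl
      intro i _
      ring
    rw [this]
    ring
  rw [e, sum_range_succ' _ (k + 2), sum_range_succ' _ (k + 2), sum_range_succ' _ (k + 2)]
  have e2 : ∀ i ∈ range (k + 2), ((k : R) + 2) * ((b (i + 1) (k + 2) : R) * x ^ (i + 1))
      + ((k : R) + 1) * ((b (i + 1) k : R) * x ^ (i + 1))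
      = (2 * (k : R) + 3) * ((b (i + 1) (k + 1) : R) * x ^ (i + 1))
        + 2 * (2 * (k : R) + 3) * (b i (k + 1) : R) * x ^ (i + 1) := by
    intro i _
    have h := congrArg (fun z : ℤ => (z : R)) (coeff_rec i k)
    push_cast at h
    linear_combination x ^ (i + 1) * h
  have E := sum_congr rfl e2
  rw [sum_add_distrib, sum_add_distrib, ← mul_sum, ← mul_sum, ← mul_sum] at E
  simp only [b_zero]
  push_cast
  linear_combination E

/-- closed form at `x = -1/4` -/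
lemma closed (y : R) (hy : 4 * y + 1 = 0) (n : ℕ) :
    ∑ k ∈ range (n + 1), (2 * (k : R) + 1) * (-1) ^ k * D k y ^ 3
      = (-1) ^ n * 4 * ((n : R) + 1) ^ 2 * D n y * D (n + 1) y * (D n y - D (n + 1) y) := by
  induction n with
  | zero =>
    simp [D, sum_range_succ]
    linear_combination (4 * y + 1) * hy
  | succ n ih =>
    rw [sum_range_succ, ih]
    have h := D_rec y n
    have h2 : 2 * (((n : R) + 2) * D (n + 2) y) + 2 * (((n : R) + 1) * D n y)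
        - (2 * (n : R) + 3) * D (n + 1) y = 0 := by
      linear_combination 2 * h + (2 * (n : R) + 3) * D (n + 1) y * hy
    push_cast
    rw [show n + 1 + 1 = n + 2 by ring]
    generalize D (n + 2) y = c at *
    generalize D (n + 1) y = a at *
    generalize D n y = d at *
    rw [pow_succ]
    linear_combination ((-1) ^ n * a * (2 * (((n : R) + 1) * d - ((n : R) + 2) * c) + a)) * h2

open Polynomial in
/-- there is `G ∈ ℤ[X]` with `∑_{k<n} (2k+1) (-1)^k D_k(X)^3 = n G` -/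
lemma exists_G (n : ℕ) : ∃ G : ℤ[X],
    ∑ k ∈ range n, (2 * (k : ℤ[X]) + 1) * (-1) ^ k * D k (X : ℤ[X]) ^ 3 = (n : ℤ[X]) * G := by
  have h : Sp n (fun k => D k (X : ℤ[X])) := by
    refine ⟨n, fun i => X ^ i, ?_⟩
    intro k hk
    beta_reduce
    rw [D_ext X hk]
    apply sum_congr rfl
    intro i _
    ring
  exact (h.pow 3).dvd_alt_sum

section padic

variable {p : ℕ} [Fact p.Prime]

lemma eval_D (x : ℤ_[p]) (k : ℕ) :
    Polynomial.eval₂ (Int.castRingHom ℤ_[p]) x (D k (Polynomial.X : Polynomial ℤ)) = D k x := by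
  unfold D
  simp [Polynomial.eval₂_finsetSum]

lemma unit_four (hp : p ≠ 2) : IsUnit (4 : ℤ_[p]) := by
  rw [PadicInt.isUnit_iff]
  by_contra h
  have h1 : ‖(4 : ℤ_[p])‖ < 1 := lt_of_le_of_ne (PadicInt.norm_le_one _) h
  have h2 : ‖((4 : ℤ) : ℤ_[p])‖ < 1 := by exact_mod_cast h1
  rw [PadicInt.norm_int_lt_one_iff_dvd] at h2
  have h3 : p ∣ 4 := by exact_mod_cast h2
  have hpp : p.Prime := Fact.out
  have h4 : p ∣ 2 := hpp.dvd_of_dvd_pow (show p ∣ 2 ^ 2 by simpa using h3)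
  exact hp ((Nat.prime_dvd_prime_iff_eq hpp Nat.prime_two).mp h4)

lemma unit_two (hp : p = 2) (x : ℤ_[p]) : IsUnit (4 * x + 1) := by
  rw [PadicInt.isUnit_iff]
  by_contra h
  have h1 : ‖4 * x + 1‖ < 1 := lt_of_le_of_ne (PadicInt.norm_le_one _) h
  have h2 : ‖((4 : ℤ) : ℤ_[p])‖ < 1 := by
    rw [PadicInt.norm_int_lt_one_iff_dvd, hp]
    norm_num
  have h2' : ‖(4 : ℤ_[p])‖ < 1 := by exact_mod_cast h2
  have h3 : ‖4 * x‖ < 1 := by
    rw [norm_mul]
    calc ‖(4 : ℤ_[p])‖ * ‖x‖ ≤ ‖(4 : ℤ_[p])‖ * 1 :=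
          mul_le_mul_of_nonneg_left (PadicInt.norm_le_one x) (norm_nonneg _)
      _ < 1 := by rw [mul_one]; exact h2'
  have h4 : ‖(4 * x + 1) + (-(4 * x))‖ ≤ max ‖4 * x + 1‖ ‖-(4 * x)‖ := PadicInt.nonarchimedean _ _
  rw [norm_neg] at h4
  have h5 : (4 * x + 1) + (-(4 * x)) = 1 := by ring
  rw [h5, norm_one] at h4
  exact absurd (lt_of_le_of_lt h4 (max_lt h1 h3)) (lt_irrefl _)

/-- the decomposition behind the valuation bound -/
lemma decomp (n : ℕ) (hn : 1 ≤ n) (x : ℤ_[p]) : ∃ A B : ℤ_[p],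
    ∑ k ∈ range n, (2 * (k : ℤ_[p]) + 1) * (-1) ^ k * D k x ^ 3
      = (n : ℤ_[p]) * ((n : ℤ_[p]) * A + (4 * x + 1) * B) := by
  obtain ⟨G, hG⟩ := exists_G n
  have hev : ∀ z : ℤ_[p], ∑ k ∈ range n, (2 * (k : ℤ_[p]) + 1) * (-1) ^ k * D k z ^ 3
      = (n : ℤ_[p]) * Polynomial.eval z (G.map (Int.castRingHom ℤ_[p])) := by
    intro z
    have h := congrArg (Polynomial.eval₂ (Int.castRingHom ℤ_[p]) z) hG
    rw [Polynomial.eval₂_finsetSum, Polynomial.eval₂_mul, Polynomial.eval₂_natCast] at h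
    rw [Polynomial.eval_map, ← h]
    apply sum_congr rfl
    intro k _
    rw [Polynomial.eval₂_mul, Polynomial.eval₂_mul, Polynomial.eval₂_pow (n := 3), eval_D]
    simp [Polynomial.eval₂_add, Polynomial.eval₂_mul, Polynomial.eval₂_pow]
  rw [hev x]
  by_cases hp : p = 2
  · obtain ⟨u, hu⟩ := unit_two hp x
    refine ⟨0, (↑u⁻¹ : ℤ_[p]) * Polynomial.eval x (G.map (Int.castRingHom ℤ_[p])), ?_⟩
    rw [← hu, mul_zero, zero_add, ← mul_assoc (u : ℤ_[p]), Units.mul_inv, one_mul]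
  · obtain ⟨u, hu⟩ := unit_four (p := p) hp
    set y : ℤ_[p] := -(↑u⁻¹ : ℤ_[p]) with hy
    have hy1 : 4 * y + 1 = 0 := by
      have := Units.mul_inv u
      rw [hy, ← hu]
      linear_combination -this
    obtain ⟨m, rfl⟩ : ∃ m, n = m + 1 := ⟨n - 1, by omega⟩
    have h1 := closed y hy1 m
    rw [hev y] at h1
    have hn0 : (((m + 1 : ℕ)) : ℤ_[p]) ≠ 0 := by exact_mod_cast (Nat.succ_ne_zero m)
    have h2 : Polynomial.eval y (G.map (Int.castRingHom ℤ_[p]))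
        = ((m + 1 : ℕ) : ℤ_[p]) * ((-1) ^ m * 4 * D m y * D (m + 1) y * (D m y - D (m + 1) y)) := by
      apply mul_left_cancel₀ hn0
      rw [h1]
      push_cast
      ring
    obtain ⟨w, hw⟩ := Polynomial.sub_dvd_eval_sub x y (G.map (Int.castRingHom ℤ_[p]))
    refine ⟨(-1) ^ m * 4 * D m y * D (m + 1) y * (D m y - D (m + 1) y), (↑u⁻¹ : ℤ_[p]) * w, ?_⟩
    congr 1
    have h3 : x - y = (4 * x + 1) * (↑u⁻¹ : ℤ_[p]) := by
      have := Units.mul_inv u
      rw [hy, ← hu]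
      linear_combination -x * this
    rw [← h2]
    linear_combination hw + w * h3

lemma addVal_nonneg (b : ℤ_[p]) : (0 : WithTop ℤ) ≤ Padic.addValuation ((b : ℤ_[p]) : ℚ_[p]) := by
  by_cases hb : b = 0
  · rw [hb]; simp
  · have hb' : ((b : ℤ_[p]) : ℚ_[p]) ≠ 0 := by simpa using hb
    rw [Padic.addValuation.apply hb']
    have h := PadicInt.valuation_coe_nonneg (x := b)
    exact WithTop.coe_le_coe.mpr h

lemma addVal_mul_le (a b : ℤ_[p]) :
    Padic.addValuation ((a : ℤ_[p]) : ℚ_[p]) ≤ Padic.addValuation (((a * b : ℤ_[p])) : ℚ_[p]) := by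
  rw [PadicInt.coe_mul, AddValuation.map_mul]
  exact le_add_of_nonneg_right (addVal_nonneg b)

/-- **Q2 is true**: for every prime `p`, every `n ≥ 1` and every `x ∈ ℤ_p`,
`ν_p((1/n) ∑_{k<n} (2k+1) (-1)^k D_k(x)^3) ≥ min(ν_p(n), ν_p(4x+1))`. -/
theorem result (p : ℕ) [Fact p.Prime] (n : ℕ) (hn : 1 ≤ n) (x : ℤ_[p]) :
    min (Padic.addValuation (n : ℚ_[p])) (Padic.addValuation (4 * (x : ℚ_[p]) + 1))
      ≤ Padic.addValuation ((1 / (n : ℚ_[p])) *
          ((∑ k ∈ range n, (2 * (k : ℤ_[p]) + 1) * (-1) ^ k * D k x ^ 3 : ℤ_[p]) : ℚ_[p])) := by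
  obtain ⟨A, B, h⟩ := decomp n hn x
  have hn0 : (n : ℚ_[p]) ≠ 0 := by exact_mod_cast (show n ≠ 0 by omega)
  have e1 : (1 / (n : ℚ_[p])) *
      ((∑ k ∈ range n, (2 * (k : ℤ_[p]) + 1) * (-1) ^ k * D k x ^ 3 : ℤ_[p]) : ℚ_[p])
      = (((n : ℤ_[p]) * A : ℤ_[p]) : ℚ_[p]) + ((((4 * x + 1) * B : ℤ_[p])) : ℚ_[p]) := by
    rw [h]
    push_cast
    field_simp
  rw [e1]
  refine le_trans ?_ (AddValuation.map_add _ _ _)
  apply min_le_min
  · have := addVal_mul_le ((n : ℤ_[p])) A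
    simpa using this
  · have h4 : 4 * (x : ℚ_[p]) + 1 = ((4 * x + 1 : ℤ_[p]) : ℚ_[p]) := by
      push_cast
      rfl
    rw [h4]
    exact addVal_mul_le (4 * x + 1) B

end padic

end Pool.Agent.Results.MP_2869d0_nt.CubeSums
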